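import Mathlib
import Pool.Agent.Lib.MP_8d161d_ag.Defs
import Pool.Agent.Lib.MP_8d161d_ag.Mg.G023
import Pool.Agent.Lib.MP_8d161d_ag.Top

/-!
Totally ramified hypersurface sections of an arbitrary projective variety, and entire curves in
varieties that are ramified over many of them.

For all `n`, `d`, `N₀` there is a number `Q` with the following property. Let `V` be a projective
variety in `P^n` and take any finite family of hypersurface sections of `V` of degrees at most `d`,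
at most `N₀` through each point of `V`, and reduced on the normalisation of `V`. Then there is a
proper closed subset `V ∩ {Δ = 0}` of `V` such that every non-constant entire curve in `V` outside
`Δ = 0` meets fewer than `Q` of the sections only with multiplicities at least `2`. Hence, for
every regular map `φ : X → V` which is ramified over at least `Q` of the sections and every entire
curve `f` in `X`, the curve `φ ∘ f` is constant or lies in `Δ = 0`.
-/

open MvPolynomial Filter Topology Pool.Agent.Lib.GGL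

namespace Pool.Agent.Results.MP_8d161d_ag.ArbitraryBase

/-- A homogeneous ideal: it contains the homogeneous components of its members. -/
def IsHomogeneousIdeal {n : ℕ} (I : Ideal (MvPolynomial (Fin (n + 1)) ℂ)) : Prop :=
  ∀ g ∈ I, ∀ k, homogeneousComponent k g ∈ I

/-- The closed subset of `P^n` defined by `I`. -/
def zeroSet {n : ℕ} (I : Ideal (MvPolynomial (Fin (n + 1)) ℂ)) : Set (PSpace n) :=
  {x | ∀ g ∈ I, eval x.rep g = 0}

/-- The section `P = 0` of the variety of `I` is reduced on the normalisation: the class of `P`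
generates a radical ideal in the integral closure of the coordinate ring of the cone in its field
of fractions. -/
def ReducedOn {n : ℕ} (I : Ideal (MvPolynomial (Fin (n + 1)) ℂ))
    (P : MvPolynomial (Fin (n + 1)) ℂ) : Prop :=
  (Ideal.span {algebraMap (MvPolynomial (Fin (n + 1)) ℂ ⧸ I)
    (integralClosure (MvPolynomial (Fin (n + 1)) ℂ ⧸ I)
      (FractionRing (MvPolynomial (Fin (n + 1)) ℂ ⧸ I))) (Ideal.Quotient.mk I P)}).IsRadical

/-- `φ` is ramified to order at least `m` over the hypersurface `P = 0`: every holomorphic arc in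
`X` meets the pull-back of the hypersurface with multiplicity `0` or at least `m`. -/
def RamifiedOverForm {N n : ℕ} (X : Set (PSpace N)) (φ : PSpace N → PSpace n)
    (P : MvPolynomial (Fin (n + 1)) ℂ) (m : ℕ) : Prop :=
  ∀ (γ : ℂ → PSpace N) (z₀ : ℂ), HolomorphicNear γ z₀ → (∀ᶠ z in 𝓝 z₀, γ z ∈ X) →
    ∀ G : ℂ → Fin (n + 1) → ℂ, IsLift (fun z => φ (γ z)) G z₀ →
      analyticOrderAt (fun z => eval (G z) P) z₀ = 0 ∨
        (m : ℕ∞) ≤ analyticOrderAt (fun z => eval (G z) P) z₀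

/-- The curve `g` meets the hypersurface `P = 0` only with multiplicities at least `m` (possibly
infinite) or not at all: for every local holomorphic lift `G` of `g` the order of vanishing of
`P (G)` is `0` or at least `m`. -/
def MeetsOnlyWithOrder {n : ℕ} (g : ℂ → PSpace n) (P : MvPolynomial (Fin (n + 1)) ℂ)
    (m : ℕ) : Prop :=
  ∀ (z₀ : ℂ) (G : ℂ → Fin (n + 1) → ℂ), IsLift g G z₀ →
    analyticOrderAt (fun z => eval (G z) P) z₀ = 0 ∨
      (m : ℕ∞) ≤ analyticOrderAt (fun z => eval (G z) P) z₀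

/-- The statement for the members of one subfamily of at least `Q` sections. -/
lemma one_subfamily {n d N₀ Q : ℕ}
    (hQ : ∀ (I : Ideal (MvPolynomial (Fin (n + 1)) ℂ)), I.IsPrime →
    HomIdeal I → ∀ (ι : Type) [Finite ι] (P : ι → MvPolynomial (Fin (n + 1)) ℂ),
    (∀ j, ∃ e, 1 ≤ e ∧ e ≤ d ∧ (P j).IsHomogeneous e) → (∀ j, RedOn I (P j)) →
    (∀ y : Fin (n + 1) → ℂ, y ≠ 0 → (∀ g ∈ I, eval y g = 0) →
      {j | eval y (P j) = 0}.ncard ≤ N₀) →
    Q ≤ Nat.card ι →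
    ∃ (e : ℕ) (Δ : MvPolynomial (Fin (n + 1)) ℂ), Δ.IsHomogeneous e ∧ Δ ∉ I ∧
      ∀ Y : ℂ → ℂ → Fin (n + 1) → ℂ, LiftFamily Y →
        (∀ z₁, ∀ᶠ z in 𝓝 z₁, ∀ g ∈ I, eval (Y z₁ z) g = 0) →
        (∀ j z₁, analyticOrderAt (fun z => eval (Y z₁ z) (P j)) z₁ = 0 ∨
          (2 : ℕ∞) ≤ analyticOrderAt (fun z => eval (Y z₁ z) (P j)) z₁) →
        ∀ z₁, eval (Y z₁ z₁) Δ ≠ 0 → ∀ z w, ∃ c : ℂ, c ≠ 0 ∧ Y z z = c • Y w w)
    {I : Ideal (MvPolynomial (Fin (n + 1)) ℂ)} (hIp : I.IsPrime)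
    (hI : IsHomogeneousIdeal I) {ι : Type} [Finite ι]
    {P : ι → MvPolynomial (Fin (n + 1)) ℂ}
    (hP : ∀ j, ∃ e, 1 ≤ e ∧ e ≤ d ∧ (P j).IsHomogeneous e) (hrad : ∀ j, ReducedOn I (P j))
    (hgp : ∀ x ∈ zeroSet I, {j | eval x.rep (P j) = 0}.ncard ≤ N₀)
    (S : Set ι) (hS : Q ≤ S.ncard) :
    ∃ (e : ℕ) (Δ : MvPolynomial (Fin (n + 1)) ℂ), Δ.IsHomogeneous e ∧ Δ ∉ I ∧
      ∀ g : ℂ → PSpace n, (∀ z, HolomorphicNear g z) → (∀ z, g z ∈ zeroSet I) →
        (∀ j ∈ S, MeetsOnlyWithOrder g (P j) 2) →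
        (∀ z w, g z = g w) ∨ ∀ z, eval (g z).rep Δ = 0 := by
  obtain ⟨e, Δ, hΔh, hΔI, hΔ⟩ := hQ I hIp hI S (fun j => P j) (fun j => hP j)
    (fun j => hrad j) (by
    intro y hy0 hy
    obtain ⟨a, ha⟩ := Projectivization.exists_smul_eq_mk_rep ℂ y hy0
    have hmem : Projectivization.mk ℂ y hy0 ∈ zeroSet I := by
      intro g hg
      rw [← ha]
      exact eval_smul_mem_zero hI hy (a : ℂ) g hg
    have h1 := hgp _ hmem
    have h2 : {j | eval (Projectivization.mk ℂ y hy0).rep (P j) = 0} =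
        {j | eval y (P j) = 0} := by
      ext j
      obtain ⟨e, -, -, he⟩ := hP j
      rw [Set.mem_ofPred_eq, Set.mem_ofPred_eq, ← ha]
      have h3 := eval_smul_of_homogeneous he (a : ℂ) y
      have h4 : eval (a • y) (P j) = (a : ℂ) ^ e * eval y (P j) := h3
      rw [h4]
      constructor
      · intro h5
        exact (mul_eq_zero.mp h5).resolve_left (pow_ne_zero _ a.ne_zero)
      · intro h5
        rw [h5, mul_zero]
    rw [h2] at h1
    refine le_trans ?_ h1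
    have h5 : {j : S | eval y (P j) = 0}.ncard =
        (Subtype.val '' {j : S | eval y (P j) = 0}).ncard :=
      (Set.ncard_image_of_injective _ Subtype.val_injective).symm
    rw [h5]
    apply Set.ncard_le_ncard _ (Set.toFinite _)
    rintro _ ⟨j, hj, rfl⟩
    exact hj) (by rw [Nat.card_coe_set_eq]; exact hS)
  refine ⟨e, Δ, hΔh, hΔI, ?_⟩
  intro g hg hgV hram
  choose Y hYl using hg
  by_cases hz : ∀ z, eval (g z).rep Δ = 0
  · exact Or.inr hz
  · left
    push Not at hz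
    obtain ⟨z₁, hz₁⟩ := hz
    intro z w
    obtain ⟨g1, g2⟩ := (hYl z₁).2.self_of_nhds
    have hz₁' : eval (Y z₁ z₁) Δ ≠ 0 := by
      intro h0
      apply hz₁
      obtain ⟨a, ha⟩ := Projectivization.exists_smul_eq_mk_rep ℂ (Y z₁ z₁) g1
      rw [g2, ← ha]
      have h5 := eval_smul_of_homogeneous hΔh (a : ℂ) (Y z₁ z₁)
      rw [h0, mul_zero] at h5
      exact h5
    obtain ⟨c, hc, hcz⟩ := hΔ Y (liftFamily_of_lifts hYl)
      (by
        intro z₂
        filter_upwards [(hYl z₂).2] with z ⟨g3, g4⟩ p hp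
        have h6 := hgV z
        rw [g4] at h6
        obtain ⟨v, hv⟩ := (Projectivization.mk_eq_mk_iff ℂ _ _
          (Projectivization.rep_nonzero _) g3).mp
            (Projectivization.mk_rep (Projectivization.mk ℂ (Y z₂ z) g3))
        have h7 : Y z₂ z = (v⁻¹ : ℂˣ) • (Projectivization.mk ℂ (Y z₂ z) g3).rep := by
          rw [← hv, smul_smul, inv_mul_cancel, one_smul]
        rw [h7]
        exact eval_smul_mem_zero hI h6 ((v⁻¹ : ℂˣ) : ℂ) p hp)
      (fun j z₁ => hram j j.2 z₁ _ (hYl z₁)) z₁ hz₁' z w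
    obtain ⟨g1, g2⟩ := (hYl z).2.self_of_nhds
    obtain ⟨g3, g4⟩ := (hYl w).2.self_of_nhds
    rw [g2, g4, Projectivization.mk_eq_mk_iff']
    exact ⟨c, hcz.symm⟩

theorem result (n d N₀ : ℕ) : ∃ Q : ℕ, ∀ I : Ideal (MvPolynomial (Fin (n + 1)) ℂ), I.IsPrime →
    IsHomogeneousIdeal I → ∀ (ι : Type) [Finite ι] (P : ι → MvPolynomial (Fin (n + 1)) ℂ),
    (∀ j, ∃ e, 1 ≤ e ∧ e ≤ d ∧ (P j).IsHomogeneous e) → (∀ j, ReducedOn I (P j)) →
    (∀ x ∈ zeroSet I, {j | eval x.rep (P j) = 0}.ncard ≤ N₀) →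
    ∃ (e : ℕ) (Δ : MvPolynomial (Fin (n + 1)) ℂ), Δ.IsHomogeneous e ∧ Δ ∉ I ∧
      (∀ g : ℂ → PSpace n, (∀ z, HolomorphicNear g z) → (∀ z, g z ∈ zeroSet I) →
        (∃ z w, g z ≠ g w) → (∃ z, eval (g z).rep Δ ≠ 0) →
        {j | MeetsOnlyWithOrder g (P j) 2}.ncard < Q) ∧
      ∀ (M : ℕ) (X : Set (PSpace M)) (φ : PSpace M → PSpace n), IsRegularOn X φ →
        (∀ x ∈ X, φ x ∈ zeroSet I) → Q ≤ {j | RamifiedOverForm X φ (P j) 2}.ncard →
        ∀ f : ℂ → PSpace M, (∀ z, HolomorphicNear f z) → (∀ z, f z ∈ X) →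
          ((∀ z w, φ (f z) = φ (f w)) ∨ ∀ z, eval (φ (f z)).rep Δ = 0) ∧
          ∀ Y : Set (PSpace M), (∀ x ∈ X, x ∉ Y →
              eval (φ x).rep Δ ≠ 0 ∧ {y ∈ X | φ y = φ x}.Finite) →
            (∃ z w, f z ≠ f w) → ∀ z, f z ∈ Y := by
  classical
  obtain ⟨Q, hQ⟩ := family_top n d N₀
  refine ⟨Q, ?_⟩
  intro I hIp hI ι _ P hP hrad hgp
  have hfin := Fintype.ofFinite (Set ι)
  have hsub : ∀ S : Set ι, ∃ (e : ℕ) (Δ : MvPolynomial (Fin (n + 1)) ℂ),
      Δ.IsHomogeneous e ∧ Δ ∉ I ∧ (Q ≤ S.ncard →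
      ∀ g : ℂ → PSpace n, (∀ z, HolomorphicNear g z) → (∀ z, g z ∈ zeroSet I) →
        (∀ j ∈ S, MeetsOnlyWithOrder g (P j) 2) →
        (∀ z w, g z = g w) ∨ ∀ z, eval (g z).rep Δ = 0) := by
    intro S
    by_cases hS : Q ≤ S.ncard
    · obtain ⟨e, Δ, h1, h2, h3⟩ := one_subfamily hQ hIp hI hP hrad hgp S hS
      exact ⟨e, Δ, h1, h2, fun _ => h3⟩
    · exact ⟨0, 1, isHomogeneous_one _ _, fun h => hIp.ne_top ((Ideal.eq_top_iff_one I).mpr h),
        fun h => absurd h hS⟩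
  choose e Δ hΔh hΔI hΔ using hsub
  have hmain : ∀ g : ℂ → PSpace n, (∀ z, HolomorphicNear g z) → (∀ z, g z ∈ zeroSet I) →
      Q ≤ {j | MeetsOnlyWithOrder g (P j) 2}.ncard →
      (∀ z w, g z = g w) ∨ ∀ z, eval (g z).rep (∏ S : Set ι, Δ S) = 0 := by
    intro g hg hgV hcard
    rcases hΔ {j | MeetsOnlyWithOrder g (P j) 2} hcard g hg hgV (fun j hj => hj) with h | h
    · exact Or.inl h
    · refine Or.inr fun z => ?_
      rw [map_prod]
      exact Finset.prod_eq_zero (Finset.mem_univ _) (h z)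
  refine ⟨∑ S : Set ι, e S, ∏ S : Set ι, Δ S, IsHomogeneous.prod _ _ _ fun S _ => hΔh S, ?_,
    ?_, ?_⟩
  · intro h
    obtain ⟨S, -, hS⟩ := (hIp.prod_mem_iff).mp h
    exact hΔI S hS
  · intro g hg hgV ⟨z, w, hne⟩ ⟨z₁, hz₁⟩
    by_contra hcon
    rcases hmain g hg hgV (not_lt.mp hcon) with h | h
    · exact hne (h z w)
    · exact hz₁ (h z₁)
  · intro M X φ hφ hφV hram f hf hfX
    have h3 : (∀ z w, φ (f z) = φ (f w)) ∨
        ∀ z, eval (φ (f z)).rep (∏ S : Set ι, Δ S) = 0 := by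
      refine hmain (fun z => φ (f z))
        (fun z => holomorphicNear_comp hφ (hf z) (Filter.Eventually.of_forall hfX))
        (fun z => hφV _ (hfX z)) (le_trans hram ?_)
      apply Set.ncard_le_ncard _ (Set.toFinite _)
      intro j hj z₀ G hG
      exact hj f z₀ (hf z₀) (Filter.Eventually.of_forall hfX) G hG
    refine ⟨h3, ?_⟩
    intro Y' hY' hne z
    by_contra hz
    obtain ⟨w₁, w₂, hw⟩ := hne
    apply hw
    obtain ⟨h4, h5⟩ := hY' (f z) (hfX z) hz
    have h6 : ∀ z w, φ (f z) = φ (f w) := by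
      rcases h3 with h | h
      · exact h
      · exact absurd (h z) h4
    apply const_of_finite hf
    apply h5.subset
    rintro _ ⟨w, rfl⟩
    exact ⟨hfX w, h6 w z⟩

end Pool.Agent.Results.MP_8d161d_ag.ArbitraryBase
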