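import Mathlib
import Pool.Agent.Lib.MP_8d161d_ag.Defs
import Pool.Agent.Lib.MP_8d161d_ag.Mg.G023
import Pool.Agent.Lib.MP_8d161d_ag.SF.D3
import Pool.Agent.Lib.MP_8d161d_ag.SF.D4
import Pool.Agent.Lib.MP_8d161d_ag.SF.D5
import Pool.Agent.Lib.MP_8d161d_ag.SM.W2

/-!
A second main theorem with truncation level one for arbitrary families of hypersurface sections of
arbitrary projective varieties, and its consequences for entire curves in varieties that are
ramified over many of the sections.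

For all `n`, `d`, `N₀` and `ε > 0` there is a number `Q` with the following property. Let `V` be a
projective variety in `P^n` and take any finite family of hypersurface sections `P j = 0` of `V` of
degrees `e j ≤ d`, at most `N₀` through each point of `V`, and reduced on the normalisation of `V`.
Then there is a proper closed subset `V ∩ {D = 0}` of `V` such that every non-constant entire curve
in `V` that does not lie in `D = 0` satisfies, for all subfamilies `S` at the same time,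
`((1 - ε) ∑ e j - Q) T(r) ≤ ∑ N₁(r, P j) + O(log r + log⁺ T(r))`, where the sums are over `S` and
every intersection point is counted once. No such curve is ramified over too many of the sections,
or over the sum of too many of the sections, and every entire curve in a variety `X` with a map to
`V` that is ramified in this way is constant on `V` or lies in `D = 0`.
-/

open MvPolynomial Filter Topology Pool.Agent.Lib.GGL

namespace Pool.Agent.Results.MP_8d161d_ag.ArbitraryFamilies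

/-- A homogeneous ideal: it contains the homogeneous components of its members. -/
def IsHomogeneousIdeal {n : ℕ} (I : Ideal (MvPolynomial (Fin (n + 1)) ℂ)) : Prop :=
  ∀ g ∈ I, ∀ k, homogeneousComponent k g ∈ I

/-- The closed subset of `P^n` defined by `I`. -/
def zeroSet {n : ℕ} (I : Ideal (MvPolynomial (Fin (n + 1)) ℂ)) : Set (PSpace n) :=
  {x | ∀ g ∈ I, eval x.rep g = 0}

/-- The section `P = 0` of the variety of `I` is reduced on the normalisation: the class of `P`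
generates a radical ideal in the integral closure of the coordinate ring of the cone in its field
of fractions. -/
def ReducedOn {n : ℕ} (I : Ideal (MvPolynomial (Fin (n + 1)) ℂ))
    (P : MvPolynomial (Fin (n + 1)) ℂ) : Prop :=
  (Ideal.span {algebraMap (MvPolynomial (Fin (n + 1)) ℂ ⧸ I)
    (integralClosure (MvPolynomial (Fin (n + 1)) ℂ ⧸ I)
      (FractionRing (MvPolynomial (Fin (n + 1)) ℂ ⧸ I))) (Ideal.Quotient.mk I P)}).IsRadical

/-- The Nevanlinna characteristic `T(r)` of the entire curve with reduced representation `Y`: the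
mean value of `log ‖Y‖` (maximum norm) on the circle `|z| = r`. -/
noncomputable def characteristic {n : ℕ} (Y : ℂ → Fin (n + 1) → ℂ) (r : ℝ) : ℝ :=
  Real.circleAverage (fun z => Real.log ‖Y z‖) 0 r

/-- The counting function of the zeros of `h` with truncation level one: the sum of
`log (r / |z|)` over the zeros `z` of `h` with `0 < |z| ≤ r`, each counted once, plus `log r` if
`h 0 = 0`. -/
noncomputable def truncatedCount (h : ℂ → ℂ) (r : ℝ) : ℝ :=
  (∑ᶠ z ∈ {z : ℂ | h z = 0 ∧ z ≠ 0 ∧ ‖z‖ ≤ r}, Real.log (r / ‖z‖)) +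
    (open Classical in if h 0 = 0 then Real.log r else 0)

/-- The curve `g` meets the hypersurface `P = 0` only with multiplicities at least `m` (possibly
infinite) or not at all: for every local holomorphic lift `G` of `g` the order of vanishing of
`P (G)` is `0` or at least `m`. -/
def MeetsOnlyWithOrder {n : ℕ} (g : ℂ → PSpace n) (P : MvPolynomial (Fin (n + 1)) ℂ)
    (m : ℕ) : Prop :=
  ∀ (z₀ : ℂ) (G : ℂ → Fin (n + 1) → ℂ), IsLift g G z₀ →
    analyticOrderAt (fun z => eval (G z) P) z₀ = 0 ∨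
      (m : ℕ∞) ≤ analyticOrderAt (fun z => eval (G z) P) z₀

/-- `φ` is ramified to order at least `m` over the hypersurface `P = 0`: every holomorphic arc in
`X` meets the pull-back of the hypersurface with multiplicity `0` or at least `m`. -/
def RamifiedOverForm {N n : ℕ} (X : Set (PSpace N)) (φ : PSpace N → PSpace n)
    (P : MvPolynomial (Fin (n + 1)) ℂ) (m : ℕ) : Prop :=
  ∀ (γ : ℂ → PSpace N) (z₀ : ℂ), HolomorphicNear γ z₀ → (∀ᶠ z in 𝓝 z₀, γ z ∈ X) →
    ∀ G : ℂ → Fin (n + 1) → ℂ, IsLift (fun z => φ (γ z)) G z₀ →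
      analyticOrderAt (fun z => eval (G z) P) z₀ = 0 ∨
        (m : ℕ∞) ≤ analyticOrderAt (fun z => eval (G z) P) z₀

lemma rep_smul {n : ℕ} {y : Fin (n + 1) → ℂ} (h : y ≠ 0) :
    ∃ c : ℂ, c ≠ 0 ∧ (Projectivization.mk ℂ y h).rep = c • y := by
  obtain ⟨v, hv⟩ := (Projectivization.mk_eq_mk_iff ℂ _ _
    (Projectivization.rep_nonzero _) h).mp
      (Projectivization.mk_rep (Projectivization.mk ℂ y h))
  exact ⟨(v : ℂ), v.ne_zero, by rw [← hv]; rfl⟩

lemma mem_zeroSet_iff {n : ℕ} {I : Ideal (MvPolynomial (Fin (n + 1)) ℂ)}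
    (hI : IsHomogeneousIdeal I) {y : Fin (n + 1) → ℂ} (h : y ≠ 0) :
    Projectivization.mk ℂ y h ∈ zeroSet I ↔ ∀ g ∈ I, eval y g = 0 := by
  obtain ⟨c, hc, hrep⟩ := rep_smul h
  constructor
  · intro hy
    have h1 := eval_smul_mem_zero hI hy c⁻¹
    intro g hg
    have h2 := h1 g hg
    rwa [hrep, smul_smul, inv_mul_cancel₀ hc, one_smul] at h2
  · intro hy g hg
    rw [hrep]
    exact eval_smul_mem_zero hI hy c g hg

/-- The number of the sections through a point, in homogeneous coordinates. -/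
lemma ncard_le {n N₀ : ℕ} {I : Ideal (MvPolynomial (Fin (n + 1)) ℂ)}
    (hI : IsHomogeneousIdeal I) {ι : Type} {P : ι → MvPolynomial (Fin (n + 1)) ℂ} {e : ι → ℕ}
    (hP : ∀ j, (P j).IsHomogeneous (e j))
    (hgp : ∀ x ∈ zeroSet I, {j | eval x.rep (P j) = 0}.ncard ≤ N₀) (y : Fin (n + 1) → ℂ)
    (hy0 : y ≠ 0) (hy : ∀ g ∈ I, eval y g = 0) : {j | eval y (P j) = 0}.ncard ≤ N₀ := by
  have h1 := hgp _ ((mem_zeroSet_iff hI hy0).mpr hy)
  obtain ⟨c, hc, hrep⟩ := rep_smul hy0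
  refine le_trans (le_of_eq ?_) h1
  congr 1
  ext j
  rw [Set.mem_ofPred_eq, Set.mem_ofPred_eq, hrep, eval_smul_of_homogeneous (hP j)]
  constructor
  · intro h5
    rw [h5, mul_zero]
  · intro h5
    exact (mul_eq_zero.mp h5).resolve_left (pow_ne_zero _ hc)

theorem result (n d N₀ : ℕ) {ε : ℝ} (hε : 0 < ε) : ∃ Q : ℕ,
    ∀ I : Ideal (MvPolynomial (Fin (n + 1)) ℂ), I.IsPrime → IsHomogeneousIdeal I →
    ∀ (ι : Type) [Fintype ι] (P : ι → MvPolynomial (Fin (n + 1)) ℂ) (e : ι → ℕ),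
    (∀ j, 1 ≤ e j ∧ e j ≤ d ∧ (P j).IsHomogeneous (e j) ∧ P j ∉ I ∧ ReducedOn I (P j)) →
    (∀ x ∈ zeroSet I, {j | eval x.rep (P j) = 0}.ncard ≤ N₀) →
    ∃ (a : ℕ) (D : MvPolynomial (Fin (n + 1)) ℂ), D.IsHomogeneous a ∧ D ∉ I ∧ (∀ j, P j ∣ D) ∧
      (∀ Y : ℂ → Fin (n + 1) → ℂ, Differentiable ℂ Y →
        (∀ z, ∃ h : Y z ≠ 0, Projectivization.mk ℂ (Y z) h ∈ zeroSet I) →
        (∃ z w, ∀ c : ℂ, Y z ≠ c • Y w) → (∃ z, eval (Y z) D ≠ 0) →
        ∃ (C : ℝ) (E : Set ℝ), MeasureTheory.volume E < ⊤ ∧ ∀ r : ℝ, 1 ≤ r → r ∉ E →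
          ∀ S : Finset ι, ((1 - ε) * ∑ j ∈ S, (e j : ℝ) - Q) * characteristic Y r ≤
            ∑ j ∈ S, truncatedCount (fun z => eval (Y z) (P j)) r +
              C * (Real.log r + Real.posLog (characteristic Y r) + 1)) ∧
      (∀ g : ℂ → PSpace n, (∀ z, HolomorphicNear g z) → (∀ z, g z ∈ zeroSet I) →
        (∃ z w, g z ≠ g w) → (∃ z, eval (g z).rep D ≠ 0) → ∀ S : Finset ι,
          (∀ m : ι → ℕ, (∀ j ∈ S, 1 ≤ m j ∧ MeetsOnlyWithOrder g (P j) (m j)) →
            ∑ j ∈ S, (1 - 1 / (m j : ℝ) - ε) * e j ≤ Q) ∧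
          ∀ m : ℕ, 1 ≤ m → MeetsOnlyWithOrder g (∏ j ∈ S, P j) m →
            (1 - N₀ / (m : ℝ) - ε) * ∑ j ∈ S, (e j : ℝ) ≤ Q) ∧
      ∀ (M : ℕ) (X : Set (PSpace M)) (φ : PSpace M → PSpace n), IsRegularOn X φ →
        (∀ x ∈ X, φ x ∈ zeroSet I) → ∀ S : Finset ι,
        ((∃ m : ι → ℕ, (∀ j ∈ S, 1 ≤ m j ∧ RamifiedOverForm X φ (P j) (m j)) ∧
            (Q : ℝ) < ∑ j ∈ S, (1 - 1 / (m j : ℝ) - ε) * e j) ∨
          ∃ m : ℕ, 1 ≤ m ∧ RamifiedOverForm X φ (∏ j ∈ S, P j) m ∧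
            (Q : ℝ) < (1 - N₀ / (m : ℝ) - ε) * ∑ j ∈ S, (e j : ℝ)) →
        ∀ f : ℂ → PSpace M, (∀ z, HolomorphicNear f z) → (∀ z, f z ∈ X) →
          ((∀ z w, φ (f z) = φ (f w)) ∨ ∀ z, eval (φ (f z)).rep D = 0) ∧
          ∀ Y : Set (PSpace M), (∀ x ∈ X, x ∉ Y →
              eval (φ x).rep D ≠ 0 ∧ {y ∈ X | φ y = φ x}.Finite) →
            (∃ z w, f z ≠ f w) → ∀ z, f z ∈ Y := by
  classical
  obtain ⟨Q, hQ⟩ := SF.all_degrees n d N₀ hε
  refine ⟨Q, ?_⟩
  intro I hIp hI ι _ P e hPe hgp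
  have he1 : ∀ j, 1 ≤ e j := fun j => (hPe j).1
  have hed : ∀ j, e j ≤ d := fun j => (hPe j).2.1
  have hPh : ∀ j, (P j).IsHomogeneous (e j) := fun j => (hPe j).2.2.1
  have hPI : ∀ j, P j ∉ I := fun j => (hPe j).2.2.2.1
  have hrad : ∀ j, ReducedOn I (P j) := fun j => (hPe j).2.2.2.2
  have hgp' := ncard_le hI hPh hgp
  obtain ⟨a, D, hDh, hDI, hPD, hD⟩ := hQ I hIp hI ι P e he1 hed hPh hrad hgp'
  have hPD' : ∀ j, P j ∣ D := fun j => hPD j (hPI j)
  have hDsmul : ∀ {y : Fin (n + 1) → ℂ} (h : y ≠ 0),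
      eval (Projectivization.mk ℂ y h).rep D ≠ 0 ↔ eval y D ≠ 0 := by
    intro y h
    obtain ⟨c, hc, hrep⟩ := rep_smul h
    rw [hrep, eval_smul_of_homogeneous hDh, mul_ne_zero_iff]
    exact ⟨fun h1 => h1.2, fun h1 => ⟨pow_ne_zero _ hc, h1⟩⟩
  -- a curve whose reduced representation is constant is constant
  have hcurve : ∀ g : ℂ → PSpace n, (∀ z, HolomorphicNear g z) → (∀ z, g z ∈ zeroSet I) →
      (∃ z w, g z ≠ g w) → (∃ z, eval (g z).rep D ≠ 0) → ∀ S : Finset ι,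
        (∀ m : ι → ℕ, (∀ j ∈ S, 1 ≤ m j ∧ MeetsOnlyWithOrder g (P j) (m j)) →
          ∑ j ∈ S, (1 - 1 / (m j : ℝ) - ε) * e j ≤ Q) ∧
        ∀ m : ℕ, 1 ≤ m → MeetsOnlyWithOrder g (∏ j ∈ S, P j) m →
          (1 - N₀ / (m : ℝ) - ε) * ∑ j ∈ S, (e j : ℝ) ≤ Q := by
    intro g hg hgV ⟨z₁, z₂, hne⟩ ⟨z₃, hz₃⟩ S
    obtain ⟨Y, hYd, hYg⟩ := SM.exists_reduced hg
    have hY0 : ∀ z, Y z ≠ 0 := fun z => (hYg z).1
    have hYI : ∀ z, ∀ q ∈ I, eval (Y z) q = 0 := by
      intro z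
      obtain ⟨h1, h2⟩ := hYg z
      rw [← mem_zeroSet_iff hI h1, ← h2]
      exact hgV z
    have hYD : ∃ z, eval (Y z) D ≠ 0 := by
      obtain ⟨h1, h2⟩ := hYg z₃
      refine ⟨z₃, ?_⟩
      rw [h2] at hz₃
      exact (hDsmul h1).mp hz₃
    have hconst : ¬ SF.PropConst Y := by
      intro hconst
      obtain ⟨c, hc, hcz⟩ := hconst z₁ z₂
      obtain ⟨h1, h2⟩ := hYg z₁
      obtain ⟨h3, h4⟩ := hYg z₂
      apply hne
      rw [h2, h4, Projectivization.mk_eq_mk_iff']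
      exact ⟨c, hcz.symm⟩
    have hlift : ∀ z, IsLift g Y z := fun z =>
      ⟨hYd.analyticAt z, Filter.Eventually.of_forall hYg⟩
    refine ⟨fun m hSm => ?_, fun m hm hSm => ?_⟩
    · by_contra hcon
      push Not at hcon
      exact hconst (SF.propConst_of_ramified (S := S) (m := m) he1 hPh
        (fun j _ _ => hPD' j) hgp' (fun Y' h1 h2 h3 => hD Y' h1 h2 h3 S)
        (fun j hj => (hSm j hj).1) (fun j _ => hPI j) hcon ⟨hYd, hY0, hYI⟩ hYD
        (fun j hj z => (hSm j hj).2 z Y (hlift z)))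
    · by_contra hcon
      push Not at hcon
      exact hconst (SF.propConst_of_product (S := S) hPh (fun j _ => hPD' j) hgp'
        (fun Y' h1 h2 h3 => hD Y' h1 h2 h3 S) hm hcon ⟨hYd, hY0, hYI⟩ hYD
        (fun z => hSm z Y (hlift z)))
  refine ⟨a, D, hDh, hDI, hPD', ?_, hcurve, ?_⟩
  · intro Y hYd hYV ⟨z₁, z₂, hne⟩ hYD
    have hY0 : ∀ z, Y z ≠ 0 := fun z => (hYV z).1
    have hYI : ∀ z, ∀ q ∈ I, eval (Y z) q = 0 := by
      intro z
      obtain ⟨h1, h2⟩ := hYV z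
      exact (mem_zeroSet_iff hI h1).mp h2
    have hnc : ¬ SF.PropConst Y := by
      intro h
      obtain ⟨c, -, hc⟩ := h z₁ z₂
      exact hne c hc
    have hall := fun S : Finset ι => hD Y ⟨hYd, hY0, hYI⟩ hnc hYD S
    choose C E hC hE hCE using hall
    refine ⟨∑ S, C S, ⋃ S, E S, ?_, ?_⟩
    · refine lt_of_le_of_lt (MeasureTheory.measure_iUnion_le _) ?_
      rw [tsum_fintype]
      exact ENNReal.sum_lt_top.mpr fun S _ => hE S
    · intro r hr hrE S
      have h1 : r ∉ E S := fun h => hrE (Set.mem_iUnion.mpr ⟨S, h⟩)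
      refine (hCE S r hr h1).trans ?_
      apply add_le_add le_rfl
      apply mul_le_mul_of_nonneg_right
      · exact Finset.single_le_sum (f := C) (fun S _ => hC S) (Finset.mem_univ S)
      · have h2 : 0 ≤ Real.log r := Real.log_nonneg hr
        have h3 : 0 ≤ Real.posLog (SM.height Y r) := Real.posLog_nonneg
        linarith
  · intro M X φ hφ hφV S hS f hf hfX
    have hg : ∀ z, HolomorphicNear (fun z => φ (f z)) z := fun z =>
      holomorphicNear_comp hφ (hf z) (Filter.Eventually.of_forall hfX)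
    have h3 : (∀ z w, φ (f z) = φ (f w)) ∨ ∀ z, eval (φ (f z)).rep D = 0 := by
      by_contra hcon
      push Not at hcon
      obtain ⟨h4, h5⟩ := hcurve (fun z => φ (f z)) hg (fun z => hφV _ (hfX z)) hcon.1 hcon.2 S
      rcases hS with ⟨m, hSm, hlarge⟩ | ⟨m, hm, hSm, hlarge⟩
      · exact absurd hlarge (not_lt.mpr (h4 m fun j hj => ⟨(hSm j hj).1, fun z₀ G hG =>
          (hSm j hj).2 f z₀ (hf z₀) (Filter.Eventually.of_forall hfX) G hG⟩))
      · exact absurd hlarge (not_lt.mpr (h5 m hm fun z₀ G hG =>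
          hSm f z₀ (hf z₀) (Filter.Eventually.of_forall hfX) G hG))
    refine ⟨h3, ?_⟩
    intro Y' hY' hne z
    by_contra hz
    obtain ⟨w₁, w₂, hw⟩ := hne
    apply hw
    obtain ⟨h4, h5⟩ := hY' (f z) (hfX z) hz
    have h6 : ∀ z w, φ (f z) = φ (f w) := by
      rcases h3 with h | h
      · exact h
      · exact absurd (h z) h4
    apply const_of_finite hf
    apply h5.subset
    rintro _ ⟨w, rfl⟩
    exact ⟨hfX w, h6 w z⟩

end Pool.Agent.Results.MP_8d161d_ag.ArbitraryFamilies
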