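import Mathlib
import Pool.Agent.Lib.MP_8d161d_ag.Defs
import Pool.Agent.Lib.MP_8d161d_ag.Top
import Pool.Agent.Lib.MP_8d161d_ag.SM.C1
import Pool.Agent.Lib.MP_8d161d_ag.SM.C5
import Pool.Agent.Lib.MP_8d161d_ag.SM.W2

/-!
A second main theorem with truncation level one for general hyperplanes, and its consequence for
entire curves in varieties that map to an arbitrary projective variety and are suitably ramified
over general hyperplane sections.

Let `V` be a closed subset of `P^M` of dimension at most `n`, let `k ≥ 7` and let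
`N ≥ 10 k³ (n + 1)`. For `N` general hyperplanes `H_j` of `P^M` every non-constant entire curve in
`V` satisfies `(1 - 5 / k) N T(r) ≤ ∑ j, N₁(r, H_j) + O(log r + log⁺ T(r))` outside a set of finite
measure, where every intersection point is counted once.
-/

open MvPolynomial Filter Topology Pool.Agent.Lib.GGL Pool.Agent.Lib.GGL.VG

namespace Pool.Agent.Results.MP_8d161d_ag.LevelOne

/-- A homogeneous ideal: it contains the homogeneous components of its members. -/
def IsHomogeneousIdeal {M : ℕ} (I : Ideal (MvPolynomial (Fin (M + 1)) ℂ)) : Prop :=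
  ∀ g ∈ I, ∀ k, homogeneousComponent k g ∈ I

/-- The closed subset of `P^M` defined by `I`. -/
def zeroSet {M : ℕ} (I : Ideal (MvPolynomial (Fin (M + 1)) ℂ)) : Set (PSpace M) :=
  {x | ∀ g ∈ I, eval x.rep g = 0}

/-- The Nevanlinna characteristic `T(r)` of the entire curve with reduced representation `Y`: the
mean value of `log ‖Y‖` (maximum norm) on the circle `|z| = r`. -/
noncomputable def characteristic {M : ℕ} (Y : ℂ → Fin (M + 1) → ℂ) (r : ℝ) : ℝ :=
  Real.circleAverage (fun z => Real.log ‖Y z‖) 0 r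

/-- The counting function of the zeros of `h` with truncation level one: the sum of
`log (r / |z|)` over the zeros `z` of `h` with `0 < |z| ≤ r`, each counted once, plus `log r` if
`h 0 = 0`. -/
noncomputable def truncatedCount (h : ℂ → ℂ) (r : ℝ) : ℝ :=
  (∑ᶠ z ∈ {z : ℂ | h z = 0 ∧ z ≠ 0 ∧ ‖z‖ ≤ r}, Real.log (r / ‖z‖)) +
    (open Classical in if h 0 = 0 then Real.log r else 0)

/-- The multiplicity condition: for every holomorphic arc `c` in `X`, every `z₀` and every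
holomorphic lift `G` of `φ ∘ c` near `z₀`, `k` times the number of the hyperplanes `p j` through
`φ (c z₀)` is at most `k - 6` times the sum of the orders of vanishing at `z₀` of all the
`p j · G`. -/
def MeetsWithMultiplicity {m M N : ℕ} (k : ℕ) (X : Set (PSpace m)) (φ : PSpace m → PSpace M)
    (p : Fin N → Fin (M + 1) → ℂ) : Prop :=
  ∀ (c : ℂ → PSpace m) (z₀ : ℂ), HolomorphicNear c z₀ → (∀ᶠ z in 𝓝 z₀, c z ∈ X) →
    ∀ G : ℂ → Fin (M + 1) → ℂ, IsLift (fun z => φ (c z)) G z₀ →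
      (k : ℕ∞) * ({j | p j ⬝ᵥ G z₀ = 0}.ncard : ℕ∞) ≤
        ((k - 6 : ℕ) : ℕ∞) * ∑ j, analyticOrderAt (fun z => p j ⬝ᵥ G z) z₀

/-- Every holomorphic arc in `X` whose image under `φ` meets some of the hyperplanes `p j` at a
point is tangent there to at least one of them: one of the orders of vanishing is at least two. -/
def MeetsTangentially {m M N : ℕ} (X : Set (PSpace m)) (φ : PSpace m → PSpace M)
    (p : Fin N → Fin (M + 1) → ℂ) : Prop :=
  ∀ (c : ℂ → PSpace m) (z₀ : ℂ), HolomorphicNear c z₀ → (∀ᶠ z in 𝓝 z₀, c z ∈ X) →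
    ∀ G : ℂ → Fin (M + 1) → ℂ, IsLift (fun z => φ (c z)) G z₀ →
      (∃ j, p j ⬝ᵥ G z₀ = 0) → ∃ j, 2 ≤ analyticOrderAt (fun z => p j ⬝ᵥ G z) z₀

/-- The conclusion of the conjecture for `φ : X → P^M` and the hyperplanes `p`: for every entire
curve `f` in `X` the curve `φ ∘ f` is constant or lies in one of the hyperplanes; hence every
non-constant entire curve in `X` lies in `Y` if `Y` contains all points of `X` over the hyperplanes
and all points of `X` on infinite fibres of `φ`. -/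
def CurvesDegenerate {m M N : ℕ} (X : Set (PSpace m)) (φ : PSpace m → PSpace M)
    (p : Fin N → Fin (M + 1) → ℂ) : Prop :=
  (∀ f : ℂ → PSpace m, (∀ z, HolomorphicNear f z) → (∀ z, f z ∈ X) →
    (∀ z w, φ (f z) = φ (f w)) ∨ ∃ j, ∀ z, p j ⬝ᵥ (φ (f z)).rep = 0) ∧
  ∀ Y : Set (PSpace m), (∀ x ∈ X, (∃ j, p j ⬝ᵥ (φ x).rep = 0) → x ∈ Y) →
    (∀ x ∈ X, ¬ {y ∈ X | φ y = φ x}.Finite → x ∈ Y) →
    ∀ f : ℂ → PSpace m, (∀ z, HolomorphicNear f z) → (∀ z, f z ∈ X) → (∃ z w, f z ≠ f w) →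
      ∀ z, f z ∈ Y

lemma rep_smul {M : ℕ} {y : Fin (M + 1) → ℂ} (h : y ≠ 0) :
    ∃ c : ℂ, c ≠ 0 ∧ (Projectivization.mk ℂ y h).rep = c • y := by
  obtain ⟨v, hv⟩ := (Projectivization.mk_eq_mk_iff ℂ _ _
    (Projectivization.rep_nonzero _) h).mp
      (Projectivization.mk_rep (Projectivization.mk ℂ y h))
  exact ⟨(v : ℂ), v.ne_zero, by rw [← hv]; rfl⟩

lemma mem_zeroSet {M : ℕ} {I : Ideal (MvPolynomial (Fin (M + 1)) ℂ)} (hI : IsHomogeneousIdeal I)
    {y : Fin (M + 1) → ℂ} (h : y ≠ 0) (hy : Projectivization.mk ℂ y h ∈ zeroSet I) (a : ℂ) :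
    ∀ G ∈ I, eval (a • y) G = 0 := by
  obtain ⟨c, hc, hrep⟩ := rep_smul h
  have h1 := eval_smul_mem_zero hI hy (a * c⁻¹)
  intro G hG
  have h2 := h1 G hG
  rwa [hrep, smul_smul, mul_assoc, inv_mul_cancel₀ hc, mul_one] at h2

lemma finite_order {M : ℕ} {Y : ℂ → Fin (M + 1) → ℂ} (hY : Differentiable ℂ Y)
    {v : Fin (M + 1) → ℂ} (hv : ∃ z, v ⬝ᵥ Y z ≠ 0) (z : ℂ) :
    analyticOrderAt (fun z => v ⬝ᵥ Y z) z ≠ ⊤ := by
  have hdot : Differentiable ℂ fun z => v ⬝ᵥ Y z := by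
    unfold dotProduct
    exact Differentiable.fun_sum fun i _ => ((differentiable_pi.mp hY) i).const_mul _
  have han : AnalyticOnNhd ℂ (fun z => v ⬝ᵥ Y z) Set.univ := fun z _ => hdot.analyticAt z
  intro htop
  obtain ⟨w, hw⟩ := hv
  apply hw
  exact han.eqOn_zero_of_preconnected_of_eventuallyEq_zero isPreconnected_univ
    (Set.mem_univ z) (analyticOrderAt_eq_top.mp htop) (Set.mem_univ w)

theorem result {M n N k : ℕ} (hk : 7 ≤ k) (hN : 10 * k ^ 3 * (n + 1) ≤ N)
    (I : Ideal (MvPolynomial (Fin (M + 1)) ℂ)) (hI : IsHomogeneousIdeal I)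
    (hdim : Algebra.trdeg ℂ (MvPolynomial (Fin (M + 1)) ℂ ⧸ I) ≤ (n + 1 : ℕ)) :
    ∃ Θ : MvPolynomial (Fin N × Fin (M + 1)) ℂ, Θ ≠ 0 ∧
      ∀ p : Fin N → Fin (M + 1) → ℂ,
        eval (fun x : Fin N × Fin (M + 1) => p x.1 x.2) Θ ≠ 0 →
        (∀ Y : ℂ → Fin (M + 1) → ℂ, Differentiable ℂ Y →
          (∀ z, ∃ h : Y z ≠ 0, Projectivization.mk ℂ (Y z) h ∈ zeroSet I) →
          (∃ z w, ∀ a : ℂ, Y z ≠ a • Y w) →
          ∃ (C : ℝ) (E : Set ℝ), MeasureTheory.volume E < ⊤ ∧ ∀ r : ℝ, 1 ≤ r → r ∉ E →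
            (1 - 5 / (k : ℝ)) * N * characteristic Y r ≤
              (∑ j, open Classical in if ∃ z, p j ⬝ᵥ Y z ≠ 0 then
                truncatedCount (fun z => p j ⬝ᵥ Y z) r else 0) +
              C * (Real.log r + Real.posLog (characteristic Y r) + 1)) ∧
        (∀ (m : ℕ) (X : Set (PSpace m)) (φ : PSpace m → PSpace M), IsRegularOn X φ →
          (∀ x ∈ X, φ x ∈ zeroSet I) → MeetsWithMultiplicity k X φ p →
          CurvesDegenerate X φ p) ∧
        (6 * n + 6 ≤ k → ∀ (m : ℕ) (X : Set (PSpace m)) (φ : PSpace m → PSpace M),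
          IsRegularOn X φ → (∀ x ∈ X, φ x ∈ zeroSet I) → MeetsTangentially X φ p →
          CurvesDegenerate X φ p) ∧
        ∀ x ∈ zeroSet I, {j | p j ⬝ᵥ x.rep = 0}.ncard ≤ n := by
  classical
  obtain ⟨Θ₁, hΘ₁, h1⟩ := SM.general_smt hk hN I hdim
  obtain ⟨Θ₂, hΘ₂, h2⟩ := SM.card_through (N := N) I hI hdim
  have hN1 : 1 ≤ N := by
    have : 1 ≤ 10 * k ^ 3 * (n + 1) :=
      Nat.mul_pos (Nat.mul_pos (by norm_num) (pow_pos (by omega) 3)) (by omega)
    omega
  refine ⟨Θ₁ * Θ₂, mul_ne_zero hΘ₁ hΘ₂, ?_⟩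
  intro p hp
  rw [map_mul] at hp
  have hp1 := left_ne_zero_of_mul hp
  have hp2 := right_ne_zero_of_mul hp
  have hgen : ∀ (m : ℕ) (X : Set (PSpace m)) (φ : PSpace m → PSpace M), IsRegularOn X φ →
      (∀ x ∈ X, φ x ∈ zeroSet I) → MeetsWithMultiplicity k X φ p → CurvesDegenerate X φ p := by
    intro m X φ hφ hφV hmult
    have hmain : ∀ f : ℂ → PSpace m, (∀ z, HolomorphicNear f z) → (∀ z, f z ∈ X) →
        (∀ z w, φ (f z) = φ (f w)) ∨ ∃ j, ∀ z, p j ⬝ᵥ (φ (f z)).rep = 0 := by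
      intro f hf hfX
      by_contra hcon
      push Not at hcon
      obtain ⟨⟨z₁, z₂, hz⟩, hcon2⟩ := hcon
      obtain ⟨Y, hY, hYg⟩ := SM.exists_reduced (g := fun z => φ (f z))
        (fun z => holomorphicNear_comp hφ (hf z) (Filter.Eventually.of_forall hfX))
      have h0 : ∀ z, Y z ≠ 0 := fun z => (hYg z).1
      have hYV : ∀ z (a : ℂ), ∀ G ∈ I, eval (a • Y z) G = 0 := by
        intro z a
        obtain ⟨h, hz⟩ := hYg z
        apply mem_zeroSet hI h
        rw [← hz]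
        exact hφV _ (hfX z)
      have hnc : ¬ SM.IsConst Y := by
        intro hc
        apply hz
        obtain ⟨a, ha⟩ := hc z₁ z₂
        obtain ⟨h, e1⟩ := hYg z₁
        obtain ⟨h', e2⟩ := hYg z₂
        rw [e1, e2, Projectivization.mk_eq_mk_iff']
        exact ⟨a, ha.symm⟩
      have hne : ∀ j, ∃ z, p j ⬝ᵥ Y z ≠ 0 := by
        intro j
        obtain ⟨z, hz⟩ := hcon2 j
        refine ⟨z, fun h3 => hz ?_⟩
        obtain ⟨h, e1⟩ := hYg z
        obtain ⟨c, hc, hrep⟩ := rep_smul h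
        rw [e1, hrep, dotProduct_smul, h3, smul_zero]
      refine SM.curve_tangency hk hN1 Y hY h0 hnc hne ?_
        (h1 p hp1 (fun z => Y (Complex.exp z)) (hY.comp Complex.differentiable_exp)
          (fun z => h0 _) (fun h => hnc (SM.isConst_of_exp hY h0 h)) (fun z a => hYV _ a))
      intro z
      have hl : IsLift (fun z => φ (f z)) Y z :=
        ⟨hY.analyticAt z, Filter.Eventually.of_forall fun w => hYg w⟩
      have h3 := hmult f z (hf z) (Filter.Eventually.of_forall hfX) Y hl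
      have h4 : ∑ j, analyticOrderAt (fun z => p j ⬝ᵥ Y z) z =
          ((∑ j, analyticOrderNatAt (fun z => p j ⬝ᵥ Y z) z : ℕ) : ℕ∞) := by
        push_cast
        refine Finset.sum_congr rfl fun j _ => ?_
        unfold analyticOrderNatAt
        exact (ENat.coe_toNat (finite_order hY (hne j) z)).symm
      rw [h4] at h3
      exact_mod_cast h3
    refine ⟨hmain, ?_⟩
    intro S hS1 hS2 f hf hfX ⟨w₁, w₂, hw⟩ z
    rcases hmain f hf hfX with h | ⟨j, hj⟩
    · by_contra hz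
      apply hw
      apply const_of_finite hf
      have h5 : {y ∈ X | φ y = φ (f z)}.Finite := by
        by_contra h6
        exact hz (hS2 _ (hfX z) h6)
      apply h5.subset
      rintro _ ⟨w, rfl⟩
      exact ⟨hfX w, h w z⟩
    · exact hS1 _ (hfX z) ⟨j, hj z⟩
  refine ⟨?_, hgen, ?_, ?_⟩
  · intro Y hY hYV hnc
    exact h1 p hp1 Y hY (fun z => (hYV z).1) (by
      intro hc
      obtain ⟨z, w, hzw⟩ := hnc
      obtain ⟨a, ha⟩ := hc z w
      exact hzw a ha) (fun z a => by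
        obtain ⟨h, h'⟩ := hYV z
        exact mem_zeroSet hI h h' a)
  · intro hkn m X φ hφ hφV htan
    apply hgen m X φ hφ hφV
    intro c z₀ hc hcX G hG
    obtain ⟨hG0, hGe⟩ := hG.2.self_of_nhds
    have hcard : {j | p j ⬝ᵥ G z₀ = 0}.ncard ≤ n := by
      apply h2 p hp2 (G z₀) hG0
      have h3 := mem_zeroSet hI hG0 (by rw [← hGe]; exact hφV _ hcX.self_of_nhds) 1
      intro F hF
      have := h3 F hF
      rwa [one_smul] at this
    by_cases hex : ∃ j, p j ⬝ᵥ G z₀ = 0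
    swap
    · have h4 : {j | p j ⬝ᵥ G z₀ = 0} = ∅ := by
        ext j
        simp only [Set.mem_setOf_eq, Set.mem_empty_iff_false, iff_false]
        exact fun h => hex ⟨j, h⟩
      rw [h4, Set.ncard_empty]
      simp
    obtain ⟨j₀, hj₀⟩ := htan c z₀ hc hcX G hG hex
    have hGan : ∀ j, AnalyticAt ℂ (fun z => p j ⬝ᵥ G z) z₀ := by
      intro j
      unfold dotProduct
      exact Finset.analyticAt_fun_sum _ fun i _ =>
        analyticAt_const.mul ((analyticAt_pi_iff.mp hG.1) i)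
    have hone : ∀ j, p j ⬝ᵥ G z₀ = 0 → 1 ≤ analyticOrderAt (fun z => p j ⬝ᵥ G z) z₀ := by
      intro j hj
      rw [ENat.one_le_iff_ne_zero]
      exact (hGan j).analyticOrderAt_ne_zero.mpr hj
    -- the sum of the orders
    have hsum : (({j | p j ⬝ᵥ G z₀ = 0}.ncard + 1 : ℕ) : ℕ∞) ≤
        ∑ j, analyticOrderAt (fun z => p j ⬝ᵥ G z) z₀ := by
      have hj₀z : p j₀ ⬝ᵥ G z₀ = 0 := by
        by_contra h5
        have h6 := (hGan j₀).analyticOrderAt_eq_zero.mpr h5
        rw [h6] at hj₀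
        exact absurd hj₀ (by norm_num)
      have h7 : {j | p j ⬝ᵥ G z₀ = 0}.ncard =
          (Finset.univ.filter fun j => p j ⬝ᵥ G z₀ = 0).card := by
        rw [← Set.ncard_coe_finset]
        congr 1
        ext j
        simp
      rw [h7, ← Finset.add_sum_erase _ _ (Finset.mem_univ j₀)]
      have h8 : (Finset.univ.filter fun j => p j ⬝ᵥ G z₀ = 0).card + 1 =
          2 + ((Finset.univ.erase j₀).filter fun j => p j ⬝ᵥ G z₀ = 0).card := by
        have h9 : (Finset.univ.filter fun j => p j ⬝ᵥ G z₀ = 0) =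
            insert j₀ ((Finset.univ.erase j₀).filter fun j => p j ⬝ᵥ G z₀ = 0) := by
          ext j
          simp only [Finset.mem_filter, Finset.mem_univ, true_and, Finset.mem_insert,
            Finset.mem_erase, ne_eq, and_true]
          constructor
          · intro h
            by_cases hjj : j = j₀
            · exact Or.inl hjj
            · exact Or.inr ⟨hjj, h⟩
          · rintro (rfl | ⟨-, h⟩)
            · exact hj₀z
            · exact h
        rw [h9, Finset.card_insert_of_notMem (by simp)]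
        ring
      rw [h8]
      push_cast
      refine add_le_add hj₀ ?_
      calc (((((Finset.univ.erase j₀).filter fun j => p j ⬝ᵥ G z₀ = 0).card : ℕ)) : ℕ∞) =
          ∑ j ∈ (Finset.univ.erase j₀).filter fun j => p j ⬝ᵥ G z₀ = 0, (1 : ℕ∞) := by simp
        _ ≤ ∑ j ∈ (Finset.univ.erase j₀).filter fun j => p j ⬝ᵥ G z₀ = 0,
            analyticOrderAt (fun z => p j ⬝ᵥ G z) z₀ :=
          Finset.sum_le_sum fun j hj => hone j (Finset.mem_filter.mp hj).2
        _ ≤ _ := Finset.sum_le_sum_of_subset (Finset.filter_subset _ _)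
    obtain ⟨c₀, hc₀⟩ : ∃ c₀, c₀ = {j | p j ⬝ᵥ G z₀ = 0}.ncard := ⟨_, rfl⟩
    rw [← hc₀] at hcard hsum ⊢
    have hnum : k * c₀ ≤ (k - 6) * (c₀ + 1) := by
      obtain ⟨k', rfl⟩ : ∃ k', k = k' + 6 := ⟨k - 6, by omega⟩
      have : k' + 6 - 6 = k' := by omega
      rw [this]
      nlinarith
    calc (k : ℕ∞) * (c₀ : ℕ∞) = ((k * c₀ : ℕ) : ℕ∞) := by push_cast; rfl
      _ ≤ (((k - 6) * (c₀ + 1) : ℕ) : ℕ∞) := by exact_mod_cast hnum
      _ = ((k - 6 : ℕ) : ℕ∞) * ((c₀ + 1 : ℕ) : ℕ∞) := by push_cast; rfl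
      _ ≤ _ := by gcongr
  · intro x hx
    apply h2 p hp2 x.rep x.rep_nonzero
    intro G hG
    exact hx G hG

end Pool.Agent.Results.MP_8d161d_ag.LevelOne
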